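import Mathlib
import Pool.Agent.H845.LocCloneDefs
import Pool.Agent.H845.LocCloneLat

/-!
# MP_c0a48b_al: embeddings of finite height lattices into the lattice of local clones

A positive answer to Q1 implies that every subset of the plane is a countable intersection of
countable unions of abstract rectangles `A × B`.
-/

set_option autoImplicit false

namespace Pool.Agent.Results.MP_c0a48b_al.RectanglePrinciple

open Set Pool.H845.LocClone
open scoped Cardinal

/-- A countable union of (abstract) rectangles. -/
def RectSigma (U : Set (ℝ × ℝ)) : Prop :=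
  ∃ A B : ℕ → Set ℝ, U = ⋃ n, A n ×ˢ B n

/-- A countable intersection of countable unions of rectangles. -/
def RectSigmaDelta (R : Set (ℝ × ℝ)) : Prop :=
  ∃ U : ℕ → Set (ℝ × ℝ), (∀ n, RectSigma (U n)) ∧ R = ⋂ n, U n

lemma rectSigma_univ : RectSigma univ :=
  ⟨fun _ => univ, fun _ => univ, by simp [iUnion_const]⟩

lemma rectSigma_of_countable {ι : Type} [Countable ι] [Nonempty ι] (A B : ι → Set ℝ) :
    RectSigma (⋃ i, A i ×ˢ B i) := by
  obtain ⟨e, he⟩ := exists_surjective_nat ι
  refine ⟨fun n => A (e n), fun n => B (e n), ?_⟩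
  ext z
  simp only [mem_iUnion]
  constructor
  · rintro ⟨i, hi⟩
    obtain ⟨n, rfl⟩ := he i
    exact ⟨n, hi⟩
  · rintro ⟨n, hn⟩
    exact ⟨e n, hn⟩

/-- If the height three lattice of `R` has an injective join preserving map into the lattice of
local clones, then the complement of `R` is a countable intersection of countable unions of
rectangles. -/
theorem compl_of_joinEmbedding {R : Set (ℝ × ℝ)} {f : Lat R → Ops} (hf : IsJoinEmbedding f) :
    RectSigmaDelta Rᶜ := by
  classical
  obtain ⟨hinj, hcl, hup, hlub⟩ := hf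
  -- the join-open sets
  let U : Piece → Set (ℝ × ℝ) := fun p =>
    {z | p ∈ W (f (pt R (Sum.inl z.1) ⊔ pt R (Sum.inr z.2)))}
  have hU : ∀ p, RectSigma (U p) := by
    intro p
    have hUeq : U p = ⋃ FG : Finset Piece × Finset Piece,
        (if Forces FG p then {x : ℝ | ↑FG.1 ⊆ W (f (pt R (Sum.inl x)))} else ∅) ×ˢ
          {y : ℝ | ↑FG.2 ⊆ W (f (pt R (Sum.inr y)))} := by
      ext ⟨x, y⟩
      simp only [mem_iUnion, mem_prod]
      constructor
      · intro h
        obtain ⟨FG, h1, h2, h3⟩ := join_finitary (hlub (pt R (Sum.inl x)) (pt R (Sum.inr y))) h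
        refine ⟨FG, ?_, h2⟩
        rw [if_pos h3]
        exact h1
      · rintro ⟨FG, h1, h2⟩
        by_cases h3 : Forces FG p
        · rw [if_pos h3] at h1
          exact h3 _ (hcl _) (fun q hq => W_mono (hup _ _).1 (h1 hq))
            (fun q hq => W_mono (hup _ _).2 (h2 hq))
        · rw [if_neg h3] at h1
          exact absurd h1 (notMem_empty _)
    rw [hUeq]
    exact rectSigma_of_countable _ _
  obtain ⟨e, he⟩ := exists_surjective_nat Piece
  refine ⟨fun n => if e n ∈ W (f (tp R)) then U (e n) else univ, ?_, ?_⟩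
  · intro n
    by_cases h : e n ∈ W (f (tp R))
    · simp only [if_pos h]; exact hU _
    · simp only [if_neg h]; exact rectSigma_univ
  · ext ⟨x, y⟩
    simp only [mem_compl_iff, mem_iInter]
    constructor
    · intro hxy n
      by_cases h : e n ∈ W (f (tp R))
      · rw [if_pos h]
        change e n ∈ W (f (pt R (Sum.inl x) ⊔ pt R (Sum.inr y)))
        rw [sup_eq_tp hxy]
        exact h
      · rw [if_neg h]; trivial
    · intro h hxy
      have hle : f (tp R) ≤ f (pt R (Sum.inl x) ⊔ pt R (Sum.inr y)) := by
        apply le_of_W (hcl _)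
        intro p hp
        obtain ⟨n, rfl⟩ := he p
        have := h n
        rw [if_pos hp] at this
        exact this
      have hge : f (pt R (Sum.inl x) ⊔ pt R (Sum.inr y)) ≤ f (tp R) := by
        have h1 := (hup (pt R (Sum.inl x) ⊔ pt R (Sum.inr y)) (tp R)).1
        have h2 : (pt R (Sum.inl x) ⊔ pt R (Sum.inr y)) ⊔ tp R = tp R :=
          sup_eq_right.2 (fun z _ => mem_univ z)
        rwa [h2] at h1
      exact sup_ne_tp hxy (hinj (le_antisymm hge hle))

/-- **Main result.**  Every subset `R` of the plane that is not a countable intersection of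
countable unions of abstract rectangles `A × B` yields a lattice of cardinality `2^ℵ₀`, all of
whose chains have at most four elements, that has no injective join preserving map (in particular
no lattice embedding) into the lattice of local clones on `ℕ`. -/
theorem result :
    ∀ R : Set (ℝ × ℝ), ¬ RectSigmaDelta R →
      ∃ (L : Type) (_ : Lattice L), (∀ s : Set L, IsChain (· ≤ ·) s → s.encard ≤ 4) ∧
        #L = 𝔠 ∧ ¬ ∃ f : L → Ops, IsJoinEmbedding f := by
  intro R hR
  refine ⟨Lat Rᶜ, inferInstance, chain_card, card_lat _, ?_⟩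
  rintro ⟨f, hf⟩
  have := compl_of_joinEmbedding hf
  rw [compl_compl] at this
  exact hR this

/-- The same result, read as a consequence of a positive answer to Q1. -/
theorem rectangle_principle_of_positive_answer
    (h : ∀ (L : Type) [Lattice L],
        (∃ N : ℕ, ∀ s : Set L, IsChain (· ≤ ·) s → s.encard ≤ (N : ℕ∞)) →
        #L = 𝔠 → ∃ f : L → Ops, IsLatticeEmbedding f) (R : Set (ℝ × ℝ)) :
    RectSigmaDelta R := by
  by_contra hR
  obtain ⟨L, inst, h1, h2, h3⟩ := result R hR
  obtain ⟨f, hf, -⟩ := @h L inst ⟨4, h1⟩ h2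
  exact h3 ⟨f, hf⟩

end Pool.Agent.Results.MP_c0a48b_al.RectanglePrinciple
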